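import Pool.Agent.N356.SP.Defs

set_option autoImplicit false

/-! LS15: the induction. -/

namespace Pool.Agent.N356.SP

open Finset Pool.Agent.H384R3.SPk

namespace LS15

/-- one step of the induction -/
theorem os3 {n : ℕ} (hn : 2 ≤ n) {β : ℝ} (hβ : 0 < β) {a₀ a' R₀ R' ρ : ℝ}
    (ha₀ : 0 < a₀) (ha' : 0 < a') (hR₀ : 0 < R₀) (hR' : 0 < R') (h1 : R₀ ≤ ρ)
    (hK : ∀ u, 0 ≤ u → u ≤ 1 → R' / ρ * (1 - u) ^ ((n : ℝ) * β) ≤
      (1 - (R₀ / ρ * u ^ β) ^ (1 / (1 + β))) ^ (1 + β)) :
    q n β (a₀ + a') ρ ^ n ≤ q n β a₀ R₀ ^ n + q n β a' R' * q n β (a₀ + a') ρ ^ (n - 1) := by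
  have hρ : 0 < ρ := lt_of_lt_of_le hR₀ h1
  have ha : 0 < a₀ + a' := by linarith
  have hn1 : 1 ≤ n := by omega
  have hn0 : (0:ℝ) < n := by exact_mod_cast (show 0 < n by omega)
  set a := a₀ + a' with hadef
  set p := q n β a ρ with hp
  have hp0 : 0 < p := q_pos n β ha hρ
  set x := a₀ / a with hx
  have hx0 : 0 < x := by positivity
  have hx1 : 1 - x = a' / a := by rw [hx]; field_simp; rw [hadef]; ring
  have hx1' : 0 < 1 - x := by rw [hx1]; positivity
  set Q := R₀ / ρ with hQ
  have hQ0 : 0 < Q := by positivity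
  set φ := R' / ρ with hφ
  have hφ0 : 0 < φ := by positivity
  set u := (x ^ (1 + β) / Q) ^ (1 / β) with hu
  have hu0 : 0 < u := by positivity
  have hp₀ : q n β a₀ R₀ ^ n = u * p ^ n := by
    rw [q_pow n hn1 hβ ha₀ hR₀, hp, q_pow n hn1 hβ ha hρ, hu,
      ← Real.mul_rpow (by positivity) (by positivity)]
    congr 1
    rw [hx, hQ, Real.div_rpow ha₀.le ha.le]
    field_simp
  set v := q n β a' R' / p with hv
  have hv0 : 0 < v := div_pos (q_pos n β ha' hR') hp0
  have hvp : (1 - x) ^ (1 + β) / φ = v ^ ((n:ℝ) * β) := by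
    rw [hv, Real.div_rpow (q_nonneg n β ha'.le hR'.le) hp0.le, q_rpow n hn1 hβ ha' hR', hp,
      q_rpow n hn1 hβ ha hρ, hx1, Real.div_rpow ha'.le ha.le, hφ]
    field_simp
  have key : 1 ≤ u + v := by
    rcases le_or_gt 1 u with hu1 | hu1
    · linarith
    · have hK := hK u hu0.le hu1.le
      have hxu : (Q * u ^ β) ^ (1 / (1 + β)) = x := by
        rw [hu, ← Real.rpow_mul (by positivity)]
        have : 1 / β * β = 1 := by field_simp
        rw [this, Real.rpow_one]
        have : Q * (x ^ (1 + β) / Q) = x ^ (1 + β) := by field_simp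
        rw [this, ← Real.rpow_mul hx0.le]
        have : (1 + β) * (1 / (1 + β)) = 1 := by field_simp
        rw [this, Real.rpow_one]
      rw [hxu] at hK
      have h4 : (1 - u) ^ ((n:ℝ) * β) ≤ v ^ ((n:ℝ) * β) := by
        rw [← hvp, le_div_iff₀ hφ0]; linarith
      have h5 : 1 - u ≤ v := by
        by_contra hcon
        push Not at hcon
        have := Real.rpow_lt_rpow hv0.le hcon (show 0 < (n:ℝ) * β by positivity)
        linarith
      linarith
  rw [hp₀]
  have e : q n β a' R' * p ^ (n - 1) = v * p ^ n := by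
    rw [hv]
    have : p ^ n = p * p ^ (n - 1) := by
      rw [← pow_succ']; congr 1; omega
    rw [this]
    field_simp
  rw [e]
  nlinarith [pow_pos hp0 n]

theorem Mono.sub {A B : Finset ℤ} (h : Mono A) (hB : B ⊆ A) : Mono B :=
  fun q hq hq' a ha b hb => h q hq hq' a (hB ha) b (hB hb)

/-- the induction, from the elementary properties of the functional -/
theorem main_gen_of
    (hsub : ∀ {k : ℕ}, 1 ≤ k → ∀ {A' A : Finset ℤ}, A' ⊆ A → (∀ a ∈ A, 0 < a) → S k A' ≤ S k A)
    (hone : ∀ {k : ℕ}, 1 ≤ k → ∀ {A : Finset ℤ}, A.Nonempty → (∀ a ∈ A, 0 < a) → 1 ≤ S k A)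
    {k n : ℕ} (hk : 1 ≤ k) (hn : 2 ≤ n) {b : ℝ} (hb : 0 < b) {B : ℝ → ℝ} {t₀ : ℝ}
    (_ht₀ : 0 ≤ t₀) (hS : SplitOK k B t₀) (hR : RealOK n b B t₀)
    (A : Fin n → Finset ℤ) (hA : ∀ i, (A i).Nonempty) (hAp : ∀ i, ∀ a ∈ A i, 0 < a)
    (hM : ∀ i, Mono (A i)) :
    ∏ i, (((A i).card : ℝ) ^ (1 + b) / S k (A i) ^ 2) ^ (1 / ((n : ℝ) * b)) ≤
      ((prodset A).card : ℝ) := by
  classical
  have hn1 : 1 ≤ n := by omega
  set P : Finset ℤ → ℝ := fun A => if Mono A then q n b (A.card : ℝ) (S k A ^ 2) else 0 with hP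
  have hP0 : ∀ A, 0 ≤ P A := by
    intro A
    simp only [hP]
    split_ifs
    · exact q_nonneg n b (Nat.cast_nonneg _) (sq_nonneg _)
    · exact le_rfl
  have hPM : ∀ A, Mono A → P A = q n b (A.card : ℝ) (S k A ^ 2) := by
    intro A h
    simp only [hP]
    rw [if_pos h]
  have hmain := taskD n hn1 P hP0 (by
    intro p A A₀ A' j hp hA0 hne0 hne' hdisj hun hv0 hv'
    by_cases hMA : Mono A
    · have s0 : A₀ ⊆ A := by rw [← hun]; exact Finset.subset_union_left
      have s1 : A' ⊆ A := by rw [← hun]; exact Finset.subset_union_right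
      rw [hPM A hMA, hPM A₀ (Mono.sub hMA s0), hPM A' (Mono.sub hMA s1)]
      have hcard : (A.card : ℝ) = A₀.card + A'.card := by
        rw [← hun, Finset.card_union_of_disjoint hdisj]; push_cast; ring
      have r0 := hone hk hne0 fun a ha => hA0 a (s0 ha)
      have r1 := hone hk hne' fun a ha => hA0 a (s1 ha)
      have rA := hone hk (hne0.mono s0) hA0
      have hle := hsub hk s0 hA0
      have hρ : 0 < S k A := by linarith
      have hRR := hR ((S k A' / S k A) ^ 2) ((S k A₀ / S k A) ^ 2) (by positivity) (by positivity)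
        (by
          rw [sq_le_one_iff₀ (by positivity), div_le_one hρ]
          exact hle)
        (by
          intro t ht0 ht1
          have h := hS p j A A₀ A' hMA ⟨hp, hA0, hne0, hne', hdisj, hun, hv0, hv'⟩ t ht0 ht1
          rw [Real.sqrt_sq (by positivity), Real.sqrt_sq (by positivity)]
          have e : S k A' / S k A + t * (S k A₀ / S k A) = (S k A' + t * S k A₀) / S k A := by
            field_simp
          rw [e, div_le_iff₀ hρ]
          linarith [mul_comm (S k A) (B t)])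
      rw [hcard]
      refine os3 hn hb (by exact_mod_cast hne0.card_pos) (by exact_mod_cast hne'.card_pos)
        (by positivity) (by positivity) (pow_le_pow_left₀ (by linarith) hle 2) ?_
      intro u hu0 hu1
      have h := hRR u hu0 hu1
      rwa [div_pow, div_pow] at h
    · have e : P A = 0 := by
        simp only [hP]
        rw [if_neg hMA]
      rw [e, zero_pow (by omega), zero_pow (by omega), mul_zero, add_zero]
      exact pow_nonneg (hP0 _) _) (by
    intro a ha
    by_cases hMA : Mono {a}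
    · rw [hPM _ hMA]
      have h1 := hone hk (Finset.singleton_nonempty a) fun x hx => by
        rw [Finset.mem_singleton] at hx; rw [hx]; exact ha
      have h2 : (({a} : Finset ℤ).card : ℝ) ^ (1 + b) / S k {a} ^ 2 ≤ 1 := by
        rw [Finset.card_singleton, Nat.cast_one, Real.one_rpow, div_le_one (by positivity)]
        nlinarith
      have h0 : 0 ≤ (({a} : Finset ℤ).card : ℝ) ^ (1 + b) / S k {a} ^ 2 :=
        div_nonneg (Real.rpow_nonneg (Nat.cast_nonneg _) _) (sq_nonneg _)
      exact Real.rpow_le_one h0 h2 (by positivity)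
    · simp only [hP]
      rw [if_neg hMA]
      exact zero_le_one) A hA hAp
  refine le_trans (le_of_eq ?_) hmain
  refine Finset.prod_congr rfl fun i _ => ?_
  rw [hPM _ (hM i)]
  rfl

end LS15

end Pool.Agent.N356.SP
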